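import Pool.Agent.L7h14.QX.Stm

set_option autoImplicit false

/-! Project QX, part CNT. -/

namespace Pool.Agent.L7h44.QX

open Finset Pool.Agent.L7h14.QX
open Pool.Agent.TH469.SX (Fl)
open Pool.Agent.TH864.SX (Slp)

/-- the point number `c` of the row `k` -/
def pnt (z : Σ _ : ℕ, ℤ) : ℤ × ℤ :=
  if 1 ≤ z.2 then (z.2 + 2 * z.1, (z.1 : ℤ)) else (2 + 2 * z.1 - z.2, 1 - z.2 + z.1)

theorem pnt_inj : Function.Injective pnt := by
  rintro ⟨k, c⟩ ⟨k', c'⟩ h
  unfold pnt at h
  simp only at h
  have h3 : k = k' ∧ c = c' := by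
    split_ifs at h with h1 h2 h2 <;> obtain ⟨e1, e2⟩ := Prod.mk.inj h <;>
      constructor <;> omega
  obtain ⟨rfl, rfl⟩ := h3
  rfl

theorem s_CNT : S_CNT := by
  intro M K A m hS _
  have hK0 : 0 < K := hS.K0
  have hD : 0 < K + 1 := by linarith
  refine ⟨((range m).sigma fun k => Finset.Icc (1 - ⌊(A - (K + 2) * k - 1) / (K + 1)⌋)
    ⌊A - (K + 2) * k⌋).image pnt, ?_, ?_⟩
  · intro x hx
    obtain ⟨⟨k, c⟩, hz, rfl⟩ := Finset.mem_image.1 (Finset.mem_coe.1 hx)
    rw [Finset.mem_sigma] at hz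
    obtain ⟨-, hc⟩ := hz
    simp only [Finset.mem_Icc] at hc
    obtain ⟨hc1, hc2⟩ := hc
    have h2 := Int.le_floor.1 hc2
    unfold pnt
    simp only
    split_ifs with h
    · refine ⟨?_, ?_, ?_, ?_⟩
      · simp only; omega
      · simp only; omega
      · simp only; push_cast; omega
      · simp only
        push_cast
        linarith
    · have h1 : 1 - c ≤ ⌊(A - (K + 2) * k - 1) / (K + 1)⌋ := by omega
      have h3 := Int.le_floor.1 h1
      rw [le_div_iff₀ hD] at h3
      push_cast at h3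
      refine ⟨?_, ?_, ?_, ?_⟩
      · simp only; omega
      · simp only; omega
      · simp only; push_cast; omega
      · simp only
        push_cast
        linarith
  · rw [Finset.card_image_of_injective _ pnt_inj, Finset.card_sigma]
    push_cast
    refine Finset.sum_le_sum fun k _ => ?_
    rw [Int.card_Icc]
    omega

end Pool.Agent.L7h44.QX
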