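import Pool.Agent.L7h14.QX.Stm

set_option autoImplicit false

/-! Project QX, part ROWX (for `m ≠ 1`; the case `m = 1`, `M + 2 ≤ A` is an exception). -/

namespace Pool.Agent.L7h44.QX

open Finset Pool.Agent.TH176.Nag Pool.Agent.L7h14.QX
open Pool.Agent.TH469.SX
open Pool.Agent.TH864.SX (Slp)

theorem crd {B : Finset ℤ} {y : ℝ} {j N : ℕ} (h : ∀ c ∈ B, -(j : ℤ) ≤ c ∧ (c : ℝ) ≤ y)
    (hy : y < N) : B.card ≤ N + j := by
  have h1 : B ⊆ Finset.Icc (-(j : ℤ)) ⌊y⌋ := fun c hc =>
    Finset.mem_Icc.2 ⟨(h c hc).1, Int.le_floor.2 (h c hc).2⟩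
  have h2 := card_le_card h1
  rw [Int.card_Icc] at h2
  have h3 : ⌊y⌋ < (N : ℤ) := Int.floor_lt.2 (by exact_mod_cast hy)
  omega

/-- the columns which reach the row `k` -/
theorem mem_rowx {K A : ℝ} (hK0 : 0 < K) {k : ℕ} {c s T : ℤ} (hT : (k : ℤ) ≤ T)
    (h1 : ((c + 2 * s, s) : ℤ × ℤ) ∈ Fl 1 K A ∪ X3)
    (h2 : ((c + 2 * (s + T), s + T) : ℤ × ℤ) ∈ Fl 1 K A ∪ X3) :
    ((1 ≤ c ∧ (c : ℝ) ≤ A - (K + 2) * k) ∨
      (c ≤ 0 ∧ (-c : ℝ) * (K + 1) ≤ A - (K + 2) * k - (K + 2))) ∨
    ((-2 ≤ c ∧ c ≤ 0) ∧ ((-c : ℝ) * (K + 1) ≤ A - (K + 2) * k ∨ k = 0)) := by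
  have hTR : (k : ℝ) ≤ T := by exact_mod_cast hT
  have hX : ∀ t : ℤ, ((c + 2 * t, t) : ℤ × ℤ) ∈ X3 → (-2 ≤ c ∧ c ≤ 0) ∧ t = -c := by
    intro t ht
    rcases ht with h | h | h
    · obtain ⟨e1, e2⟩ := Prod.mk.inj h
      omega
    · obtain ⟨e1, e2⟩ := Prod.mk.inj h
      omega
    · obtain ⟨e1, e2⟩ := Prod.mk.inj h
      omega
  rcases h2 with h2 | h2
  · rcases h1 with h1 | h1
    · left
      have h3 := mem_row (p := 2) (q := 1) (k := k) (c := c) (s := s) (T := T) (by norm_num) hK0 hT
        (by exact_mod_cast h1) (by exact_mod_cast h2)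
      rcases h3 with ⟨h4, h5⟩ | ⟨h4, h5⟩
      · left
        refine ⟨h4, ?_⟩
        push_cast at h5
        linarith
      · right
        refine ⟨h4, ?_⟩
        push_cast at h5
        linarith
    · right
      obtain ⟨h3, rfl⟩ := hX s h1
      refine ⟨h3, Or.inl ?_⟩
      have h4 := h2.2.2.2
      simp only at h4
      push_cast at h4
      have h5 : (K + 2) * k ≤ (K + 2) * T := mul_le_mul_of_nonneg_left hTR (by linarith)
      linarith
  · right
    obtain ⟨h3, h4⟩ := hX (s + T) h2
    refine ⟨h3, Or.inr ?_⟩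
    rcases h1 with h1 | h1
    · exfalso
      have h5 := h1.2.2.1
      simp only at h5
      push_cast at h5
      omega
    · obtain ⟨-, h5⟩ := hX s h1
      omega

theorem rowx {M m : ℕ} {K A : ℝ} (hS : Slp M 1 K) (hm1 : m ≠ 1) (hA0 : 0 ≤ A)
    (hA : A < (K + 2) * m) : Emp (fun _ : Fin (M + 4) => m) (Fl 1 K A ∪ X3) := by
  have hK0 : 0 < K := hS.K0
  have hK : ((1 : ℕ) : ℝ) * (K * (K - M)) = M := hS.eq
  have hMK : K < M + 1 := by
    have h1 := hS.eq
    have h2 := hS.hMK
    by_contra hcon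
    push Not at hcon
    push_cast at h1
    have h3 : K * 1 ≤ K * (K - M) := mul_le_mul_of_nonneg_left (by linarith) hK0.le
    linarith
  have hcard : Fintype.card (Fin (M + 4)) = M + 4 := Fintype.card_fin _
  refine Emp_slabs 1 (-2) 1 0 (by ring) fun k B hB => ?_
  rw [sum_const' hcard]
  have hmem : ∀ c ∈ B, ((1 ≤ c ∧ (c : ℝ) ≤ A - (K + 2) * k) ∨
      (c ≤ 0 ∧ (-c : ℝ) * (K + 1) ≤ A - (K + 2) * k - (K + 2))) ∨
      ((-2 ≤ c ∧ c ≤ 0) ∧ ((-c : ℝ) * (K + 1) ≤ A - (K + 2) * k ∨ k = 0)) := by
    intro c hc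
    obtain ⟨s, T, hT, h1, h2⟩ := hB c hc
    simp only [one_mul, zero_mul, neg_mul, sub_neg_eq_add, zero_add] at h1 h2
    exact mem_rowx hK0 hT h1 h2
  clear hB
  rcases le_or_gt (3 * K + 4) (A - (K + 2) * k) with hy | hy
  · have hrc := row_card (p := 2) (q := 1) (M := M) (m := m) (k := k) (K := K) (A := A) (B := B)
      (by norm_num) hK0 hK (by push_cast; linarith) (fun c hc => by
        push_cast
        rcases hmem c hc with (⟨h1, h2⟩ | ⟨h1, h2⟩) | ⟨⟨h1, h2⟩, -⟩
        · exact Or.inl ⟨h1, h2⟩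
        · exact Or.inr ⟨h1, by linarith⟩
        · refine Or.inr ⟨h2, ?_⟩
          have h3 : (-c : ℝ) ≤ 2 := by
            have : -c ≤ 2 := by omega
            exact_mod_cast this
          have h4 : (-c : ℝ) * (K + 1) ≤ 2 * (K + 1) :=
            mul_le_mul_of_nonneg_right h3 (by linarith)
          linarith)
    simpa using hrc
  · -- the columns `c ≤ 0` in the short rows
    have hneg : ∀ c ∈ B, c ≤ 0 → -2 ≤ c ∧ ((-c : ℝ) * (K + 1) ≤ A - (K + 2) * k ∨ k = 0) := by
      intro c hc hc0
      rcases hmem c hc with (⟨h1, h2⟩ | ⟨h1, h2⟩) | ⟨⟨h1, h2⟩, h3⟩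
      · omega
      · refine ⟨?_, Or.inl (by linarith)⟩
        by_contra hcon
        have h3 : (3 : ℝ) ≤ -c := by
          have : 3 ≤ -c := by omega
          exact_mod_cast this
        have h4 : 3 * (K + 1) ≤ (-c : ℝ) * (K + 1) :=
          mul_le_mul_of_nonneg_right h3 (by linarith)
        linarith
      · exact ⟨h1, h3⟩
    have hpos : ∀ c ∈ B, 1 ≤ c → (c : ℝ) ≤ A - (K + 2) * k := by
      intro c hc hc0
      rcases hmem c hc with (⟨h1, h2⟩ | ⟨h1, h2⟩) | ⟨⟨h1, h2⟩, h3⟩
      · exact h2
      · omega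
      · omega
    have hml : ∀ n : ℕ, n ≤ m - k → (M + 4) * n ≤ (M + 4) * (m - k) := fun n hn =>
      Nat.mul_le_mul_left _ hn
    rcases Nat.eq_zero_or_pos k with rfl | hk
    · -- the row 0
      simp only [Nat.cast_zero, mul_zero, sub_zero] at hpos hneg hy hml ⊢
      have hm2 : 2 ≤ m := by
        rcases Nat.lt_or_ge m 2 with h | h
        · exfalso
          have : m = 0 := by omega
          subst this
          simp at hA
          linarith
        · exact h
      have hB : ∀ c ∈ B, -((2 : ℕ) : ℤ) ≤ c ∧ (c : ℝ) ≤ A := by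
        intro c hc
        rcases lt_or_ge 0 c with h | h
        · exact ⟨by push_cast; omega, hpos c hc (by omega)⟩
        · refine ⟨by push_cast; exact (hneg c hc h).1, ?_⟩
          have : (c : ℝ) ≤ 0 := by exact_mod_cast h
          linarith
      rcases Nat.eq_or_lt_of_le hm2 with h | h
      · have h1 := crd (N := 2 * M + 6) hB (by
          rw [← h] at hA
          push_cast at hA ⊢
          linarith)
        have h2 := hml 2 hm2
        omega
      · have h1 := crd (N := 3 * M + 7) hB (by push_cast; linarith)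
        have h2 := hml 3 h
        omega
    · have hk0 : k ≠ 0 := by omega
      rcases B.eq_empty_or_nonempty with he | hne
      · rw [he]; simp
      have hneg' : ∀ c ∈ B, c ≤ 0 → -2 ≤ c ∧ (-c : ℝ) * (K + 1) ≤ A - (K + 2) * k := by
        intro c hc h
        obtain ⟨h1, h2⟩ := hneg c hc h
        exact ⟨h1, h2.resolve_right hk0⟩
      have hy0 : 0 ≤ A - (K + 2) * k := by
        obtain ⟨c, hc⟩ := hne
        rcases lt_or_ge 0 c with h | h
        · have h1 := hpos c hc (by omega)
          have h2 : (1 : ℝ) ≤ c := by exact_mod_cast (show (1 : ℤ) ≤ c by omega)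
          linarith
        · have h1 := (hneg' c hc h).2
          have h2 : (c : ℝ) ≤ 0 := by exact_mod_cast h
          have h3 : 0 ≤ (-c : ℝ) * (K + 1) := mul_nonneg (by linarith) (by linarith)
          linarith
      have hkm : k < m := by
        have h1 : (K + 2) * k < (K + 2) * m := by linarith
        have h2 := lt_of_mul_lt_mul_left h1 (by linarith)
        exact_mod_cast h2
      obtain ⟨l, hl⟩ : ∃ l, m = k + l := ⟨m - k, by omega⟩
      have hyl : A - (K + 2) * k < (K + 2) * l := by
        rw [hl] at hA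
        push_cast at hA
        linarith
      have hml' : ∀ n : ℕ, n ≤ l → (M + 4) * n ≤ (M + 4) * (m - k) := fun n hn =>
        hml n (by omega)
      -- the columns in the interval `[-j, y]`
      have hcol : ∀ j : ℕ, A - (K + 2) * k < (j + 1) * (K + 1) ∨ j = 2 →
          ∀ c ∈ B, -(j : ℤ) ≤ c ∧ (c : ℝ) ≤ A - (K + 2) * k := by
        intro j hj c hc
        rcases lt_or_ge 0 c with h | h
        · exact ⟨by omega, hpos c hc (by omega)⟩
        · obtain ⟨h1, h2⟩ := hneg' c hc h
          have h3 : (c : ℝ) ≤ 0 := by exact_mod_cast h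
          refine ⟨?_, by linarith⟩
          rcases hj with hj | rfl
          · have h4 : (-c : ℝ) * (K + 1) < (j + 1) * (K + 1) := lt_of_le_of_lt h2 hj
            have h5 : (-c : ℝ) < j + 1 := lt_of_mul_lt_mul_right h4 (by linarith)
            have h6 : -c < (j : ℤ) + 1 := by exact_mod_cast h5
            omega
          · push_cast
            exact h1
      have hl1 : 1 ≤ l := by omega
      rcases lt_or_ge (A - (K + 2) * k) (K + 1) with h0 | h0
      · have h1 := crd (N := M + 2) (hcol 0 (Or.inl (by push_cast; linarith))) (by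
          push_cast
          linarith)
        have h2 := hml' 1 hl1
        omega
      rcases lt_or_ge (A - (K + 2) * k) (2 * K + 2) with h0' | h0'
      · have hc1 := hcol 1 (Or.inl (by push_cast; linarith))
        rcases Nat.eq_or_lt_of_le hl1 with h | h
        · have h1 := crd (N := M + 3) hc1 (by
            rw [← h] at hyl
            push_cast at hyl ⊢
            linarith)
          have h2 := hml' 1 hl1
          omega
        · have h1 := crd (N := 2 * M + 4) hc1 (by push_cast; linarith)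
          have h2 := hml' 2 h
          omega
      · have hc2 := hcol 2 (Or.inr rfl)
        have hl2 : 2 ≤ l := by
          by_contra hcon
          have h1 : l = 1 := by omega
          rw [h1] at hyl
          push_cast at hyl
          linarith
        rcases Nat.eq_or_lt_of_le hl2 with h | h
        · have h1 := crd (N := 2 * M + 6) hc2 (by
            rw [← h] at hyl
            push_cast at hyl ⊢
            linarith)
          have h2 := hml' 2 hl2
          omega
        · have h1 := crd (N := 3 * M + 7) hc2 (by push_cast; linarith)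
          have h2 := hml' 3 h
          omega

end Pool.Agent.L7h44.QX
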